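import Pool.Agent.helper7.EP.SpecH

/-!
# Project ep:, module TW1 (helper49)
-/

set_option autoImplicit false

open Finset PowerSeries UpperHalfPlane ModularForm
open scoped MatrixGroups Real

noncomputable section

namespace Pool.Agent.EP

open Pool.Agent.helper81 (EE PP PP_mul_EE)

/-- Power series in `q` as Laurent series in `x`, `q = x^3`. -/
def TW1_phi : (ZMod 2)⟦X⟧ →+* KK :=
  (HahnSeries.ofPowerSeries ℤ (ZMod 2)).comp
    (PowerSeries.expand 3 (by norm_num) : (ZMod 2)⟦X⟧ →ₐ[ZMod 2] (ZMod 2)⟦X⟧).toRingHom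

/-- The variable `x`. -/
def TW1_s : KK := HahnSeries.single (1 : ℤ) (1 : ZMod 2)

/-- The inverse of `x`. -/
def TW1_t : KK := HahnSeries.single (-1 : ℤ) (1 : ZMod 2)

/-- The inverse of `ww`. -/
def TW1_vv : KK := HahnSeries.single (1 : ℤ) (1 : ZMod 2) *
    HahnSeries.ofPowerSeries ℤ (ZMod 2) (PowerSeries.expand 24 (by norm_num) EE)

theorem TW1_st : TW1_s * TW1_t = 1 := by
  unfold TW1_s TW1_t
  rw [HahnSeries.single_mul_single]
  norm_num

theorem TW1_phi_E : TW1_phi (EE ^ 8) =
    HahnSeries.ofPowerSeries ℤ (ZMod 2) (PowerSeries.expand 24 (by norm_num) EE) := by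
  have h8 : EE ^ 8 = PowerSeries.expand 8 (by norm_num) EE :=
    helper12.PE.pow_eq_expand EE 3
  rw [h8]
  show HahnSeries.ofPowerSeries ℤ (ZMod 2) (PowerSeries.expand 3 (by norm_num)
    (PowerSeries.expand 8 (by norm_num) EE)) = _
  rw [← PowerSeries.expand_mul 3 (by norm_num) 8 (by norm_num) EE]

theorem TW1_phi_X : TW1_phi X = TW1_s ^ 3 := by
  show HahnSeries.ofPowerSeries ℤ (ZMod 2) (PowerSeries.expand 3 (by norm_num) X) = _
  rw [PowerSeries.expand_X, map_pow, HahnSeries.ofPowerSeries_X]
  rfl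

theorem TW1_phi_DD : TW1_phi helper12.PE.DD = TW1_vv ^ 3 := by
  have : helper12.PE.DD = X * (EE ^ 8) ^ 3 := by
    unfold helper12.PE.DD
    rw [← pow_mul]
  rw [this, map_mul, map_pow, TW1_phi_E, TW1_phi_X]
  unfold TW1_vv TW1_s
  ring

theorem TW1_phi_coeff (F : (ZMod 2)⟦X⟧) (N : ℤ) : (TW1_phi F).coeff N =
    if (3 : ℤ) ∣ N ∧ 0 ≤ N then PowerSeries.coeff (N / 3).toNat F else 0 := by
  show (HahnSeries.ofPowerSeries ℤ (ZMod 2) (PowerSeries.expand 3 (by norm_num) F)).coeff N = _
  have h := PowerSeries.coeff_coe (f := PowerSeries.expand 3 (by norm_num) F) N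
  have h' : (HahnSeries.ofPowerSeries ℤ (ZMod 2) (PowerSeries.expand 3 (by norm_num) F)).coeff N =
    if N < 0 then 0 else PowerSeries.coeff N.natAbs (PowerSeries.expand 3 (by norm_num) F) := h
  rw [h']
  by_cases hN : N < 0
  · rw [if_pos hN, if_neg (by omega)]
  · rw [if_neg hN, PowerSeries.coeff_expand]
    by_cases h3 : 3 ∣ N.natAbs
    · rw [if_pos h3, if_pos (by omega)]
      congr 2
      omega
    · rw [if_neg h3, if_neg (by omega)]

theorem TW1_coeff_t (k : ℕ) (F : KK) (M : ℤ) : (TW1_t ^ k * F).coeff M = F.coeff (M + k) := by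
  unfold TW1_t
  rw [HahnSeries.single_pow, one_pow]
  have h := HahnSeries.coeff_single_mul_add (r := (1 : ZMod 2)) (x := F) (a := M + k)
    (b := (k : ℕ) • (-1 : ℤ))
  rw [one_mul] at h
  rw [← h]
  congr 1
  simp

theorem TW1 (hHM : HM_stmt) (hINT : INT4_stmt) (hCM : CM2_stmt) (hWM : WM_stmt) : TW1_stmt := by
  intro l m hl hl5 hm
  have hwv : ww * TW1_vv = 1 := hWM.2
  -- arithmetic facts
  have hl2 : l % 2 = 1 := by
    rcases Nat.Prime.eq_two_or_odd hl with h | h
    · omega
    · exact h
  have hl3 : l % 3 = 1 ∨ l % 3 = 2 := by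
    have : ¬ 3 ∣ l := by
      intro h
      have := (Nat.prime_dvd_prime_iff_eq Nat.prime_three hl).mp h
      omega
    omega
  have hlsq : 3 ∣ l ^ 2 - 1 := by
    have h1 : l ^ 2 % 3 = 1 := by
      rw [Nat.pow_mod]
      rcases hl3 with h | h <;> rw [h]
    omega
  obtain ⟨e, he⟩ := hlsq
  have he' : l ^ 2 = 3 * e + 1 := by
    have : 1 ≤ l ^ 2 := Nat.one_le_pow _ _ (by omega)
    omega
  have hnn : nn l m = m * e := by
    unfold nn
    rw [he, Nat.mul_div_cancel_left _ (by norm_num)]
  -- the reduction of `HH`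
  set U : (ZMod 2)⟦X⟧ := PowerSeries.map (Int.castRingHom (ZMod 2)) (UU l m + VV l m) with hU
  have hEE : PowerSeries.map (Int.castRingHom (ZMod 2)) (pentagonalSeries ℤ) = EE :=
    helper12.PE.map_pentagonalSeries _
  have hHH : PowerSeries.map (Int.castRingHom (ZMod 2)) (HH l m) = (EE ^ 8) ^ (l * m) * U := by
    unfold HH
    rw [map_mul, map_pow, hEE, map_add, map_mul, PowerSeries.map_C, hU, map_add]
    have h1 : (Int.castRingHom (ZMod 2)) ((l : ℤ) ^ (4 * m + 1)) = 1 := by
      rw [map_pow]
      have : (Int.castRingHom (ZMod 2)) (l : ℤ) = 1 := by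
        rw [eq_intCast, Int.cast_natCast]
        rw [← ZMod.natCast_mod, hl2]
        rfl
      rw [this, one_pow]
    rw [h1, map_one, one_mul, ← pow_mul, mul_assoc]
  obtain ⟨F, hF⟩ := hHM l m hl hl5
  have hspan := hINT (m * (l - 1)) F (HH l m) hF
  rw [hHH] at hspan
  -- the element
  let G : KK := TW1_t ^ (l * m) * TW1_phi U
  have hG1 : G = ww ^ (l * m) * TW1_phi ((EE ^ 8) ^ (l * m) * U) := by
    have h1 : TW1_vv ^ (l * m) = TW1_s ^ (l * m) * TW1_phi ((EE ^ 8) ^ (l * m)) := by
      rw [map_pow, TW1_phi_E, ← mul_pow]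
      rfl
    calc G = (ww * TW1_vv) ^ (l * m) * (TW1_t ^ (l * m) * TW1_phi U) := by
          rw [hwv, one_pow, one_mul]
      _ = ww ^ (l * m) * ((TW1_s * TW1_t) ^ (l * m) * (TW1_phi ((EE ^ 8) ^ (l * m)) *
          TW1_phi U)) := by
          rw [mul_pow, h1, mul_pow]
          ring
      _ = ww ^ (l * m) * TW1_phi ((EE ^ 8) ^ (l * m) * U) := by
          rw [TW1_st, one_pow, one_mul, map_mul]
  have hGW : ∀ f ∈ Submodule.span (ZMod 2)
      (Set.range fun i : Fin ((m * (l - 1)) / 3 + 1) => helper12.PE.DD ^ (i : ℕ)),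
      ww ^ (l * m) * TW1_phi f ∈ WW := by
    intro f hf
    induction hf using Submodule.span_induction with
    | mem x hx =>
      obtain ⟨i, rfl⟩ := hx
      show ww ^ (l * m) * TW1_phi (helper12.PE.DD ^ (i : ℕ)) ∈ WW
      rw [map_pow, TW1_phi_DD]
      have hi : (i : ℕ) < (m * (l - 1)) / 3 + 1 := i.2
      have hi' : 3 * (i : ℕ) ≤ m * (l - 1) := by omega
      have hlm : m * (l - 1) + m = l * m := by
        obtain ⟨c, hc⟩ : ∃ c, l = c + 1 := ⟨l - 1, by omega⟩
        rw [hc]
        simp only [Nat.add_sub_cancel]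
        ring
      obtain ⟨d, hd⟩ : ∃ d, l * m = d + 3 * (i : ℕ) := ⟨l * m - 3 * (i : ℕ), by omega⟩
      have e1 : ww ^ (l * m) * (TW1_vv ^ 3) ^ (i : ℕ) = ww ^ d := by
        rw [hd, pow_add, ← pow_mul, mul_assoc, ← mul_pow, hwv, one_pow, mul_one]
      rw [e1]
      exact Submodule.subset_span ⟨d, by omega, rfl⟩
    | zero => rw [map_zero, mul_zero]; exact Submodule.zero_mem _
    | add x y _ _ hx hy => rw [map_add, mul_add]; exact Submodule.add_mem _ hx hy
    | smul a x _ hx =>
      have ha : a = 0 ∨ a = 1 := by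
        revert a
        decide
      rcases ha with rfl | rfl
      · rw [zero_smul, map_zero, mul_zero]; exact Submodule.zero_mem _
      · rw [one_smul]; exact hx
  refine ⟨G, ?_, ?_⟩
  · rw [hG1]
    exact hGW _ hspan
  · intro M
    have hGc : G.coeff M = (TW1_phi U).coeff (M + (l * m : ℕ)) := TW1_coeff_t _ _ _
    rw [hGc, TW1_phi_coeff, hWM.1, hWM.1]
    have hlpos : (0 : ℤ) < l := by
      have := hl.pos
      exact_mod_cast this
    have heZ : (l : ℤ) ^ 2 = 3 * e + 1 := by exact_mod_cast he'
    set N : ℤ := M + (l * m : ℕ) with hN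
    have hlM : (l : ℤ) * M + m = l * N - 3 * (m * e) := by
      rw [hN]; push_cast
      linear_combination (-(m : ℤ)) * heZ
    by_cases hc : (3 : ℤ) ∣ N ∧ 0 ≤ N
    · obtain ⟨⟨n', hn'⟩, hN0⟩ := hc
      rw [if_pos ⟨⟨n', hn'⟩, hN0⟩]
      have hn0 : 0 ≤ n' := by omega
      obtain ⟨k, rfl⟩ := Int.eq_ofNat_of_zero_le hn0
      have hk : (N / 3).toNat = k := by omega
      rw [hk, hU, PowerSeries.coeff_map, map_add, map_add]
      have hlM' : (l : ℤ) * M + m = 3 * ((l * k : ℕ) - (m * e : ℕ)) := by
        rw [hlM, hn']; push_cast; ring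
      congr 1
      · -- the part `UU`
        unfold UU
        rw [PowerSeries.coeff_mk, hnn]
        by_cases hle : m * e ≤ l * k
        · rw [if_pos hle, eq_intCast, hCM]
          by_cases h8 : 8 ∣ l * k - m * e
          · rw [if_pos h8, if_pos (by constructor <;> omega)]
            congr 2
            omega
          · rw [if_neg h8, if_neg (by omega)]
        · rw [if_neg hle, if_neg (by omega), map_zero]
      · -- the part `VV`
        unfold VV
        rw [PowerSeries.coeff_mk]
        have hiff : l ∣ k ↔ (l : ℤ) ∣ M := by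
          constructor
          · rintro ⟨c, rfl⟩
            refine ⟨3 * c - m, ?_⟩
            have : M = N - (l * m : ℕ) := by rw [hN]; ring
            rw [this, hn']; push_cast; ring
          · rintro ⟨c, hc⟩
            have h3k : (l : ℤ) ∣ 3 * (k : ℤ) := by
              refine ⟨c + m, ?_⟩
              rw [← hn', hN, hc]; push_cast; ring
            have h3k' : l ∣ 3 * k := by exact_mod_cast h3k
            have hcop : Nat.Coprime l 3 := by
              rw [Nat.Prime.coprime_iff_not_dvd hl]
              intro h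
              have := Nat.le_of_dvd (by norm_num) h
              omega
            exact hcop.dvd_of_dvd_mul_left h3k'
        by_cases hlk : l ∣ k
        · rw [if_pos hlk, if_pos (hiff.mp hlk), eq_intCast, hCM]
          obtain ⟨c, rfl⟩ := hlk
          have hMc : M / l = 3 * c - m := by
            have : M = l * (3 * c - m) := by
              have h1 : M = N - (l * m : ℕ) := by rw [hN]; ring
              rw [h1, hn']; push_cast; ring
            rw [this, Int.mul_ediv_cancel_left _ (by omega)]
          rw [hMc, Nat.mul_div_cancel_left _ hl.pos]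
          have e3 : (3 * (c : ℤ) - m + m) = 3 * c := by ring
          rw [e3]
          by_cases h8 : 8 ∣ c
          · rw [if_pos h8, if_pos (by constructor <;> omega)]
            congr 2
            omega
          · rw [if_neg h8, if_neg (by omega)]
        · rw [if_neg hlk, if_neg (fun h => hlk (hiff.mpr h)), map_zero]
    · rw [if_neg hc]
      have hsecond : (if (l : ℤ) ∣ M then
          (if (24 : ℤ) ∣ M / l + m ∧ 0 ≤ M / l + m then
            PowerSeries.coeff ((M / l + m) / 24).toNat (PP ^ m) else 0) else 0 : ZMod 2) = 0 := by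
        by_cases hd : (l : ℤ) ∣ M
        · rw [if_pos hd]
          obtain ⟨c, hc'⟩ := hd
          have hMc : M / l = c := by rw [hc', Int.mul_ediv_cancel_left _ (by omega)]
          rw [hMc]
          have hNc : N = l * (c + m) := by rw [hN, hc']; push_cast; ring
          rw [if_neg]
          rintro ⟨h24, hge⟩
          apply hc
          constructor
          · rw [hNc]
            exact Dvd.dvd.mul_left (Dvd.dvd.trans (by norm_num) h24) _
          · rw [hNc]; positivity
        · rw [if_neg hd]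
      rw [hsecond, add_zero, if_neg]
      rintro ⟨h24, hge⟩
      apply hc
      have hlN : (l : ℤ) * N = (l * M + m) + 3 * (m * e) := by rw [hlM]; ring
      constructor
      · have h3 : (3 : ℤ) ∣ l * N := by
          rw [hlN]
          exact Dvd.dvd.add (Dvd.dvd.trans (by norm_num) h24) (Dvd.intro _ rfl)
        have hcop : IsCoprime (3 : ℤ) (l : ℤ) := by
          rw [Int.isCoprime_iff_gcd_eq_one]
          have : Nat.Coprime 3 l := by
            rw [Nat.Prime.coprime_iff_not_dvd Nat.prime_three]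
            omega
          exact this
        exact hcop.dvd_of_dvd_mul_left h3
      · by_contra hneg
        push Not at hneg
        have h1 : (l : ℤ) * N < 0 := mul_neg_of_pos_of_neg hlpos hneg
        have h2 : (0 : ℤ) ≤ m * e := by positivity
        linarith

end Pool.Agent.EP
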