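import Pool.Agent.helper71.EP.SpecE
import Pool.Agent.helper90.EP.JN

/-!
# Project ep:, module EBO (helper49)
-/

set_option autoImplicit false

open Finset
open scoped Real
open Pool.Agent.helper74.TG

noncomputable section

namespace Pool.Agent.EP

theorem EBO_ac {N : ℤ} (h : ac N ≠ 0) (hN : 0 ≤ N) :
    ∃ n : ℕ, Odd (Fintype.card (Nat.Partition n)) ∧ 24 * (n : ℤ) = N + 1 := by
  unfold ac at h
  by_cases hc : N % 24 = 23 ∧ -1 ≤ N
  · rw [if_pos hc] at h
    refine ⟨((N + 1) / 24).toNat, ?_, ?_⟩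
    · unfold pp at h
      by_contra hodd
      apply h
      rw [Nat.not_odd_iff_even] at hodd
      exact (ZMod.natCast_eq_zero_iff_even).mpr hodd
    · have h1 : 0 ≤ (N + 1) / 24 := by omega
      rw [Int.toNat_of_nonneg h1]
      omega
  · rw [if_neg hc] at h
    exact absurd rfl h

/-- If only the divisor `1` occurs then `JG` is one value. -/
theorem EBO_one (j : ℕ) (M : ℤ) (hj : 0 < j)
    (h : ∀ d : ℕ, d ∣ j → (d : ℤ) ∣ M → d = 1) : JG ac j M = ac ((j : ℤ) * M) := by
  unfold JG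
  have hf : j.divisors.filter (fun d : ℕ => (d : ℤ) ∣ M) = {1} := by
    ext d
    rw [Finset.mem_filter, Nat.mem_divisors, Finset.mem_singleton]
    constructor
    · rintro ⟨⟨h1, _⟩, h2⟩
      exact h d h1 h2
    · rintro rfl
      exact ⟨⟨one_dvd _, hj.ne'⟩, by norm_num⟩
  rw [hf, Finset.sum_singleton]
  norm_num

theorem EBO (hIDK : IDK_stmt) : EBO_stmt := by
  have hJN : JN_stmt := JN
  intro U u q hz
  unfold Pq at hz
  rw [Finset.mem_filter, Finset.mem_product, Finset.mem_Ioc, Finset.mem_range] at hz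
  obtain ⟨⟨⟨hu0, _⟩, _⟩, hodd, hq24, hqp, h2q, h2p, hpp⟩ := hz
  simp only at hu0 hodd hq24 hqp h2q h2p hpp
  obtain ⟨p, hp⟩ : ∃ p, p = 3 * u ^ 2 - 4 * q := ⟨_, rfl⟩
  have hpu : p + 4 * q = 3 * u ^ 2 := by omega
  have hp2 : 2 * u < p := by omega
  rw [← hp] at hpp
  have hpZ : (p : ℤ) = 3 * (u : ℤ) ^ 2 - 4 * q := by
    have : ((p + 4 * q : ℕ) : ℤ) = ((3 * u ^ 2 : ℕ) : ℤ) := by rw [hpu]
    push_cast at this
    linarith
  have hcop : Nat.Coprime q 6 := by
    rw [Nat.coprime_iff_gcd_eq_one, Nat.gcd_comm, Nat.gcd_rec]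
    have : q % 6 = 1 := by omega
    rw [this]
    decide
  have hid := hIDK 2 q (le_refl 2) hcop (p : ℤ)
  have hsq : (2 : ℤ) ^ 2 = 4 := by norm_num
  -- the special term
  have humem : u ∈ us 2 q (p : ℤ) := by
    unfold us
    rw [Finset.mem_filter, Finset.mem_range]
    refine ⟨?_, hodd, ?_⟩
    · have h1 : ((p : ℤ) + q * 2 ^ 2) = ((3 * u ^ 2 : ℕ) : ℤ) := by
        push_cast; rw [hpZ]; ring
      rw [h1, Int.toNat_natCast]
      nlinarith
    · rw [hpZ]
      exact ⟨-q, by ring⟩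
  have hterm : JG ac q (((p : ℤ) - 3 * (u : ℤ) ^ 2) / 2 ^ 2) = 1 := by
    have h1 : ((p : ℤ) - 3 * (u : ℤ) ^ 2) / 2 ^ 2 = -(q : ℤ) := by
      rw [hpZ, show (3 * (u : ℤ) ^ 2 - 4 * q - 3 * (u : ℤ) ^ 2) = 2 ^ 2 * (-(q : ℤ)) by ring]
      exact Int.mul_ediv_cancel_left _ (by norm_num)
    rw [h1, hJN q _ hqp.pos (by have := hqp.pos; omega), if_pos rfl]
  by_cases hL : ∃ v ∈ us 2 q (p : ℤ), v ≠ u ∧
      JG ac q (((p : ℤ) - 3 * (v : ℤ) ^ 2) / 2 ^ 2) ≠ 0
  · obtain ⟨v, hv, hvu, hvne⟩ := hL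
    unfold us at hv
    rw [Finset.mem_filter] at hv
    obtain ⟨_, hvodd, M', hM'⟩ := hv
    rw [hM', Int.mul_ediv_cancel_left _ (by norm_num : (2 : ℤ) ^ 2 ≠ 0)] at hvne
    rw [hsq] at hM'
    have hMpos : 0 < M' := by
      by_contra hneg
      push Not at hneg
      rcases lt_or_eq_of_le hneg with h | h
      · rw [hJN q M' hqp.pos h] at hvne
        have h3 : M' = -(q : ℤ) := by
          by_contra h4
          rw [if_neg h4] at hvne
          exact hvne rfl
        apply hvu
        rw [h3, hpZ] at hM'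
        have h5 : (v : ℤ) ^ 2 = (u : ℤ) ^ 2 := by linarith
        have h6 : v ^ 2 = u ^ 2 := by exact_mod_cast h5
        exact Nat.pow_left_injective (by norm_num : (2 : ℕ) ≠ 0) h6
      · apply hvne
        rw [h]
        unfold JG
        apply Finset.sum_eq_zero
        intro d _
        rw [mul_zero, Int.zero_ediv]
        unfold ac
        rw [if_neg]
        norm_num
    have hvlt : (v : ℤ) < u := by
      have : (v : ℤ) ^ 2 < (u : ℤ) ^ 2 := by
        have hq0 : (0 : ℤ) < q := by exact_mod_cast hqp.pos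
        nlinarith
      exact lt_of_pow_lt_pow_left₀ 2 (by positivity) this
    have hvltN : v < u := by exact_mod_cast hvlt
    have hnd : ¬ (q : ℤ) ∣ M' := by
      intro hd
      have h1 : (q : ℤ) ∣ 3 * (((u - v : ℕ) : ℤ) * ((u + v : ℕ) : ℤ)) := by
        have h2 : (3 * (((u - v : ℕ) : ℤ) * ((u + v : ℕ) : ℤ))) = 4 * M' + 4 * q := by
          rw [Nat.cast_sub hvltN.le]
          push_cast
          rw [← hM', hpZ]
          ring
        rw [h2]
        exact Dvd.dvd.add (Dvd.dvd.mul_left hd 4) (Dvd.intro_left 4 rfl)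
      have h1' : q ∣ 3 * ((u - v) * (u + v)) := by exact_mod_cast h1
      rcases (Nat.Prime.dvd_mul hqp).mp h1' with h | h
      · have := Nat.le_of_dvd (by norm_num) h
        omega
      · rcases (Nat.Prime.dvd_mul hqp).mp h with h | h
        · have := Nat.le_of_dvd (by omega) h
          omega
        · have := Nat.le_of_dvd (by omega) h
          omega
    rw [EBO_one q M' hqp.pos (by
      intro d hd1 hd2
      rcases (Nat.dvd_prime hqp).mp hd1 with h | h
      · exact h
      · rw [h] at hd2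
        exact absurd hd2 hnd)] at hvne
    obtain ⟨n, hn1, hn2⟩ := EBO_ac hvne (by positivity)
    refine ⟨n, hn1, Or.inr ⟨v, ?_, ?_⟩⟩
    · have h1 : 3 * (v : ℤ) ^ 2 < p := by linarith
      have h2 : 3 * v ^ 2 < p := by exact_mod_cast h1
      omega
    · have h1 : 3 * (v : ℤ) ^ 2 < p := by linarith
      have h2 : 3 * v ^ 2 < p := by exact_mod_cast h1
      rw [← hp]
      have h3 : ((p - 3 * v ^ 2 : ℕ) : ℤ) = 4 * M' := by
        rw [Nat.cast_sub h2.le]; push_cast; exact hM'
      have h4 : ((96 * n : ℕ) : ℤ) = ((q * (p - 3 * v ^ 2) + 4 : ℕ) : ℤ) := by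
        push_cast [h3]
        linarith
      exact_mod_cast h4
  · push Not at hL
    have hsum : ∑ v ∈ us 2 q (p : ℤ), JG ac q (((p : ℤ) - 3 * (v : ℤ) ^ 2) / 2 ^ 2) = 1 := by
      rw [Finset.sum_eq_single_of_mem u humem (fun v hv hvu => hL v hv hvu)]
      exact hterm
    rw [hsum] at hid
    have hR : ∃ w ∈ ws (q * 2 ^ 2), JG ac (q * 2 ^ 2 - 3 * w ^ 2) p ≠ 0 := by
      apply Finset.exists_ne_zero_of_sum_ne_zero
      rw [← hid]
      exact one_ne_zero
    obtain ⟨w, hw, hwne⟩ := hR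
    unfold ws at hw
    rw [Finset.mem_filter] at hw
    obtain ⟨_, hwodd, hw3⟩ := hw
    have hw4 : 3 * w ^ 2 < 4 * q := by omega
    have hwu : w < u := by
      have : w ^ 2 < u ^ 2 := by omega
      exact lt_of_pow_lt_pow_left₀ 2 (by positivity) this
    set j := q * 2 ^ 2 - 3 * w ^ 2 with hj
    have hjpos : 0 < j := by omega
    have hjp : j + p = 3 * ((u - w) * (u + w)) := by
      have h1 : ((j + p : ℕ) : ℤ) = ((3 * ((u - w) * (u + w)) : ℕ) : ℤ) := by
        have h2 : ((j : ℕ) : ℤ) = 4 * q - 3 * (w : ℤ) ^ 2 := by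
          rw [hj, Nat.cast_sub (by omega)]
          push_cast
          ring
        push_cast [Nat.cast_sub hwu.le]
        rw [h2, hpZ]
        ring
      exact_mod_cast h1
    have hpnd : ¬ p ∣ j := by
      intro hd
      have h1 : p ∣ 3 * ((u - w) * (u + w)) := by
        rw [← hjp]
        exact Dvd.dvd.add hd (dvd_refl p)
      rcases (Nat.Prime.dvd_mul hpp).mp h1 with h | h
      · have h3 := Nat.le_of_dvd (by norm_num) h
        have h4 : u = 1 := by omega
        rw [h4] at hpu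
        have := hqp.pos
        have := hpp.pos
        omega
      · rcases (Nat.Prime.dvd_mul hpp).mp h with h | h
        · have := Nat.le_of_dvd (by omega) h
          omega
        · have := Nat.le_of_dvd (by omega) h
          omega
    rw [EBO_one j p hjpos (by
      intro d hd1 hd2
      have hd2' : d ∣ p := by exact_mod_cast hd2
      rcases (Nat.dvd_prime hpp).mp hd2' with h | h
      · exact h
      · rw [h] at hd1
        exact absurd hd1 hpnd)] at hwne
    obtain ⟨n, hn1, hn2⟩ := EBO_ac hwne (by positivity)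
    refine ⟨n, hn1, Or.inl ⟨w, hw4, ?_⟩⟩
    rw [← hp]
    have h5 : (4 * q - 3 * w ^ 2) = j := by omega
    rw [h5]
    exact_mod_cast hn2

end Pool.Agent.EP
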