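import Pool.Agent.helper7.EP.SpecB
import Pool.Agent.helper41.EP.ID

/-!
# Project ep:, module RHK (helper49)
-/

set_option autoImplicit false

open Finset PowerSeries

noncomputable section

namespace Pool.Agent.EP

theorem RHK : RHK_stmt := by
  intro a y k n w ha hk hn hsp hxb hw
  have hwmem := hw
  simp only [ws, Finset.mem_filter, Finset.mem_range] at hw
  simp only [PK, Finset.mem_filter, Finset.mem_Ioc] at hk
  obtain ⟨_, hkp, hk24⟩ := hk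
  obtain ⟨p₁, p₂, hp₁, hp₂, hy₁, hy₂, hprod⟩ := hsp
  obtain ⟨j, hj⟩ : ∃ j, j = k * 2 ^ a - 3 * w ^ 2 := ⟨_, rfl⟩
  obtain ⟨m, hm⟩ : ∃ m, m = 24 * n + 3 - 2 ^ a := ⟨_, rfl⟩
  have hmprod : m = r0 a * p₁ * p₂ := by omega
  have hA := ID_A a ha
  have hw24 := ID_w w hw.2.1
  have hkA : k * 2 ^ a % 24 = 2 ^ a % 24 := by
    rw [Nat.mul_mod, hk24]
    norm_num
  have hnp : ∀ p : ℕ, p.Prime → y < p → p ∣ m → ¬ p ∣ j := by
    intro p hp hyp hpm hpj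
    apply hxb
    refine ⟨p, hp, hyp, ?_, w, hwmem, ?_⟩
    · rw [← hm]; exact hpm
    · rw [← hj]; exact hpj
  have hnp₁ : ¬ p₁ ∣ j := hnp p₁ hp₁ hy₁ (by
    rw [hmprod]
    exact Dvd.dvd.mul_right (Dvd.intro_left _ rfl) _)
  have hnp₂ : ¬ p₂ ∣ j := hnp p₂ hp₂ hy₂ (by
    rw [hmprod]
    exact Dvd.intro_left _ rfl)
  have hc₁ : Nat.Coprime p₁ j := (Nat.Prime.coprime_iff_not_dvd hp₁).mpr hnp₁
  have hc₂ : Nat.Coprime p₂ j := (Nat.Prime.coprime_iff_not_dvd hp₂).mpr hnp₂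
  have hgcd : Nat.gcd j m = Nat.gcd j (r0 a) := by
    rw [hmprod, Nat.Coprime.gcd_mul_right_cancel_right _ hc₂,
      Nat.Coprime.gcd_mul_right_cancel_right _ hc₁]
  rw [← hj, ← hm]
  have hj0 : 0 < j := by omega
  have hm0 : 0 < m := by omega
  have hj24 : (j % 24 = 5 ∧ m % 24 = 19) ∨ (j % 24 = 13 ∧ m % 24 = 11) := by omega
  have hjm : (j * m) % 24 = 23 := by
    rw [Nat.mul_mod]
    rcases hj24 with ⟨h1, h2⟩ | ⟨h1, h2⟩ <;> rw [h1, h2]
  have key : ∀ d : ℕ, d ∣ j → d ∣ m → ∃ N, j * m / d ^ 2 = N ∧ j * m = d ^ 2 * N ∧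
      ((j : ℤ) * (m : ℤ) / (d : ℤ) ^ 2) = (N : ℤ) ∧ N % 24 = 23 := by
    intro d hdj hdm
    obtain ⟨N, hN⟩ : d ^ 2 ∣ j * m := by
      rw [pow_two]
      exact Nat.mul_dvd_mul hdj hdm
    have hd0 : 0 < d := Nat.pos_of_dvd_of_pos hdj hj0
    have hd2 : 0 < d ^ 2 := by positivity
    have e1 : j * m / d ^ 2 = N := by
      rw [hN]
      exact Nat.mul_div_cancel_left N hd2
    have e2 : ((j : ℤ) * (m : ℤ) / (d : ℤ) ^ 2) = (N : ℤ) := by
      have : ((j * m / d ^ 2 : ℕ) : ℤ) = (N : ℤ) := by rw [e1]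
      rw [← this]
      push_cast
      ring_nf
    refine ⟨N, e1, hN, e2, ?_⟩
    have hdodd : d % 2 = 1 := by
      rcases Nat.even_or_odd d with h | h
      · exfalso
        have : 2 ∣ j := h.two_dvd.trans hdj
        omega
      · exact Nat.odd_iff.1 h
    have hd3 : d % 3 ≠ 0 := by
      intro h
      have : 3 ∣ j := (Nat.dvd_of_mod_eq_zero h).trans hdj
      omega
    have hd24 := ID_sq d hdodd hd3
    rw [hN, Nat.mul_mod, hd24] at hjm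
    omega
  have hset : j.divisors.filter (fun d : ℕ => (d : ℤ) ∣ (m : ℤ)) =
      (Nat.gcd j (r0 a)).divisors := by
    rw [← hgcd]
    ext d
    simp only [Finset.mem_filter, Nat.mem_divisors, Int.natCast_dvd_natCast, Nat.dvd_gcd_iff]
    constructor
    · rintro ⟨⟨h1, _⟩, h2⟩
      exact ⟨⟨h1, h2⟩, (Nat.gcd_pos_of_pos_left _ hj0).ne'⟩
    · rintro ⟨⟨h1, h2⟩, _⟩
      exact ⟨⟨h1, hj0.ne'⟩, h2⟩
  constructor
  · unfold JG
    rw [hset]
    refine Finset.sum_congr rfl fun d hd => ?_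
    rw [← hgcd, Nat.mem_divisors, Nat.dvd_gcd_iff] at hd
    obtain ⟨⟨hdj, hdm⟩, _⟩ := hd
    obtain ⟨N, e1, hN, e2, hN24⟩ := key d hdj hdm
    rw [e1, e2]
    unfold ac
    rw [if_pos]
    · congr 1
    · constructor
      · omega
      · omega
  · intro d hd
    rw [← hgcd, Nat.mem_divisors, Nat.dvd_gcd_iff] at hd
    obtain ⟨⟨hdj, hdm⟩, _⟩ := hd
    obtain ⟨N, e1, hN, e2, hN24⟩ := key d hdj hdm
    refine ⟨⟨N, hN⟩, ?_⟩
    rw [e1]
    omega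

end Pool.Agent.EP
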